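import Pool.Agent.Run7.h189.AR.Gap2

/-! A positive answer to the category question Q1 gives a spectral gap for almost every tuple. -/

open MeasureTheory

namespace Pool.Agent.Results.MP_9bb777_an.GenericGap

open Run7.h189.AR

theorem result (G : Type) [Group G] [TopologicalSpace G] [IsTopologicalGroup G]
    [CompactSpace G] [ConnectedSpace G] [T2Space G] [SecondCountableTopology G]
    [MeasurableSpace G] [BorelSpace G] (μ : Measure G) [μ.IsHaarMeasure]
    (m m' : ℕ) (hm : 2 ≤ m) (hmm : m ≤ m') (hm' : 3 ≤ m')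
    (hQ : ∃ Ω : Set (Fin m → G), IsGδ Ω ∧ Dense Ω ∧ ∀ a ∈ Ω,
      Dense ((Subgroup.closure (Set.range a) : Subgroup G) : Set G) → AsympRamanujan μ a) :
    ∀ᵐ a ∂(Measure.pi fun _ : Fin m' => μ), HasGap μ a :=
  main_gap μ m m' hm hmm hm' hQ

end Pool.Agent.Results.MP_9bb777_an.GenericGap
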