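import Pool.Agent.Run7.h189.AR.Uniform

/-! The category question Q1 is equivalent to a locally uniform bound for the number of
exceptional eigenvalues near a dense set of tuples. -/

open MeasureTheory

namespace Pool.Agent.Results.MP_9bb777_an.LocallyUniformBaire

open Run7.h189.AR

theorem result (G : Type) [Group G] [TopologicalSpace G] [IsTopologicalGroup G]
    [CompactSpace G] [ConnectedSpace G] [T2Space G] [SecondCountableTopology G]
    [MeasurableSpace G] [BorelSpace G] (μ : Measure G) [μ.IsHaarMeasure]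
    (m : ℕ) (hm : 2 ≤ m) :
    (∃ Ω : Set (Fin m → G), IsGδ Ω ∧ Dense Ω ∧ ∀ a ∈ Ω,
        Dense ((Subgroup.closure (Set.range a) : Subgroup G) : Set G) → AsympRamanujan μ a) ↔
      ∀ ε : ℝ, 0 < ε → Dense {a : Fin m → G | ∃ N : ℕ, ∀ᶠ b in nhds a,
        BoundedByN μ b (2 * Real.sqrt (2 * (m : ℝ) - 1) + ε) N} :=
  q1_iff_uniform μ m hm

end Pool.Agent.Results.MP_9bb777_an.LocallyUniformBaire
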