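import Pool.Agent.Run7.h189.AR.MainQ2

/-! A zero-one law for the measure version Q2 of the question, for Nielsen classes of tuples. -/

open MeasureTheory

namespace Pool.Agent.Results.MP_9bb777_an.NielsenZeroOneMeasure

open Run7.h189.AR

theorem result (G : Type) [Group G] [TopologicalSpace G] [IsTopologicalGroup G]
    [CompactSpace G] [ConnectedSpace G] [T2Space G] [SecondCountableTopology G]
    [MeasurableSpace G] [BorelSpace G] [Nontrivial G] (μ : Measure G) [μ.IsHaarMeasure]
    (m : ℕ) (hm : 3 ≤ m) :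
    ((∀ᵐ a ∂(Measure.pi fun _ : Fin m => μ),
        Dense ((Subgroup.closure (Set.range a) : Subgroup G) : Set G) → AsympRamanujan μ a) →
      ∀ᵐ a ∂(Measure.pi fun _ : Fin m => μ), ∀ b, NielsenEquiv a b → AsympRamanujan μ b) ∧
    ((¬ ∀ᵐ a ∂(Measure.pi fun _ : Fin m => μ),
        Dense ((Subgroup.closure (Set.range a) : Subgroup G) : Set G) → AsympRamanujan μ a) →
      ∃ ε : ℝ, 0 < ε ∧ ∀ᵐ a ∂(Measure.pi fun _ : Fin m => μ),
        {b | NielsenEquiv a b ∧ Dense ((Subgroup.closure (Set.range b) : Subgroup G) : Set G) ∧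
          ¬ BoundedBy μ b (2 * Real.sqrt (2 * (m : ℝ) - 1) + ε)}.Infinite) :=
  main μ m hm

end Pool.Agent.Results.MP_9bb777_an.NielsenZeroOneMeasure
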